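import Pool.Agent.H891FSS.FD_RES
import Pool.Agent.H891FSS.FE_RES

set_option autoImplicit false

namespace Pool.Agent.Results.MP_b306af_co.AllSubcubicAndBipartite

open Pool.Agent.H891WLC

/-- `p` is a straight-line crossing-free drawing of `G`: distinct vertices are distinct points, no
vertex lies on the closed segment of an edge except its two ends, and the segments of two different
edges meet only in a common end vertex. -/
def Drawing {V : Type} (G : SimpleGraph V) (p : V → ℝ × ℝ) : Prop :=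
  Function.Injective p ∧
    (∀ u v w : V, G.Adj u v → w ≠ u → w ≠ v → p w ∉ segment ℝ (p u) (p v)) ∧
    (∀ u v x y : V, G.Adj u v → G.Adj x y → s(u, v) ≠ s(x, y) →
      ∀ z ∈ segment ℝ (p u) (p v), z ∈ segment ℝ (p x) (p y) →
        ∃ w : V, (w = u ∨ w = v) ∧ (w = x ∨ w = y) ∧ z = p w)

/-- `G` is planar (it has a straight-line crossing-free drawing) -/
def Planar {V : Type} (G : SimpleGraph V) : Prop := ∃ p : V → ℝ × ℝ, Drawing G p

/-- maximum degree at most `D` -/
def MaxDegree {V : Type} (G : SimpleGraph V) (D : ℕ) : Prop := ∀ v, Set.ncard {x | G.Adj v x} ≤ D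

/-- `S` is a free set of `G`: its elements can be listed as `v 0, …, v (s-1)` (each once) such that for
all reals `x 0 < … < x (s-1)` and all reals `y 0, …, y (s-1)` there is a straight-line crossing-free
drawing of `G` that places `v i` at `(x i, y i)` for every `i`. -/
def IsFreeSet {V : Type} (G : SimpleGraph V) (S : Finset V) : Prop :=
  ∃ v : Fin S.card → V, Function.Injective v ∧ (∀ a, a ∈ S ↔ ∃ i, v i = a) ∧
    ∀ x y : Fin S.card → ℝ, StrictMono x →
      ∃ p : V → ℝ × ℝ, Drawing G p ∧ ∀ i, p (v i) = (x i, y i)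

/-- every set `X` of vertices of `G` contains a free set `S` of `G` with `|S| ≥ c |X|` and
`|S| ≥ c |X| ^ 0.8` -/
def GoodSubsets {V : Type} (G : SimpleGraph V) (c : ℝ) : Prop :=
  ∀ X : Finset V, ∃ S : Finset V, S ⊆ X ∧ IsFreeSet G S ∧ c * (X.card : ℝ) ≤ S.card ∧
    c * (X.card : ℝ) ^ (0.8 : ℝ) ≤ S.card

theorem pow_le (n : ℕ) : (n : ℝ) ^ (0.8 : ℝ) ≤ n := by
  rcases Nat.eq_zero_or_pos n with h | h
  · subst h
    have : (0 : ℝ) ^ (0.8 : ℝ) = 0 := Real.zero_rpow (by norm_num)
    simp [this]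
  · have h1 : (1 : ℝ) ≤ n := by exact_mod_cast h
    calc (n : ℝ) ^ (0.8 : ℝ) ≤ (n : ℝ) ^ (1 : ℝ) :=
          Real.rpow_le_rpow_of_exponent_le h1 (by norm_num)
      _ = n := Real.rpow_one _

theorem good_of {V : Type} {G : SimpleGraph V} {c : ℝ} (hc : 0 < c)
    (h : ∀ X : Finset V, ∃ S : Finset V, S ⊆ X ∧ IsFreeSet G S ∧ c * (X.card : ℝ) ≤ S.card) :
    GoodSubsets G c := by
  intro X
  obtain ⟨S, h1, h2, h3⟩ := h X
  exact ⟨S, h1, h2, h3, le_trans (mul_le_mul_of_nonneg_left (pow_le X.card) hc.le) h3⟩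

/-- **Q1 for `Δ = 3` (with a linear bound), and for every `Δ` on bipartite planar graphs of maximum
degree at most `Δ` (with a linear bound).** -/
theorem result :
    (∃ c : ℝ, 0 < c ∧ ∀ (V : Type) [Fintype V] (G : SimpleGraph V),
      Planar G → MaxDegree G 3 → GoodSubsets G c) ∧
    (∀ D : ℕ, ∃ c : ℝ, 0 < c ∧ ∀ (V : Type) [Fintype V] (G : SimpleGraph V),
      Planar G → G.Colorable 2 → MaxDegree G D → GoodSubsets G c) := by
  classical
  constructor
  · refine ⟨1 / 40, by norm_num, ?_⟩
    intro V _ G hP hG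
    apply good_of (by norm_num)
    intro X
    obtain ⟨S, hSX, hcard, hfree, -⟩ := FD_RES G hP hG X
    exact ⟨S, hSX, hfree, by linarith⟩
  · intro D
    have hpos : (0 : ℝ) < 1 + D + D * D := by positivity
    refine ⟨1 / (1 + D + D * D), by positivity, ?_⟩
    intro V _ G hP hc hG
    obtain ⟨C⟩ := hc
    have hb : ∀ x y, G.Adj x y → (x ∈ {v | C v = 0} ↔ y ∉ {v | C v = 0}) := by
      intro x y hxy
      have hne := C.valid hxy
      simp only [Set.mem_ofPred_eq]
      generalize C x = a at *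
      generalize C y = b at *
      revert a b
      decide
    apply good_of (by positivity)
    intro X
    obtain ⟨S, hSX, hcard, hfree, -⟩ := FE_RES G hP {v | C v = 0} hb D hG X
    refine ⟨S, hSX, hfree, ?_⟩
    rw [one_div, inv_mul_le_iff₀ hpos]
    exact hcard

end Pool.Agent.Results.MP_b306af_co.AllSubcubicAndBipartite
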