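import Mathlib
import Pool.Agent.Results.MP_ca05b3_co.LinearFreeSubsets

/-!
Linear free subsets of prescribed vertex sets in all subgraphs of triconnected cubic planar graphs.
-/

set_option autoImplicit false

namespace Pool.Agent.Results.MP_b306af_co.CubicSubgraphs

open Pool.Agent.Results.MP_ca05b3_co.LinearFreeSubsets

lemma drawing_comp {V W : Type} {G : SimpleGraph V} {H : SimpleGraph W} (f : V → W)
    (hf : Function.Injective f) (hadj : ∀ u v, G.Adj u v → H.Adj (f u) (f v))
    {p : W → ℝ × ℝ} (hp : Drawing H p) : Drawing G (fun v => p (f v)) := by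
  obtain ⟨h1, h2, h3⟩ := hp
  refine ⟨fun a b hab => hf (h1 hab), ?_, ?_⟩
  · intro u v w huv hwu hwv
    exact h2 (f u) (f v) (f w) (hadj u v huv) (fun h => hwu (hf h)) (fun h => hwv (hf h))
  · intro u v x y huv hxy hne z hz hz'
    have hne' : s(f u, f v) ≠ s(f x, f y) := by
      intro h
      apply hne
      rw [Sym2.eq_iff] at h ⊢
      rcases h with ⟨a, b⟩ | ⟨a, b⟩
      · exact Or.inl ⟨hf a, hf b⟩
      · exact Or.inr ⟨hf a, hf b⟩
    obtain ⟨w, hw1, hw2, hw3⟩ := h3 (f u) (f v) (f x) (f y) (hadj u v huv) (hadj x y hxy) hne' z hz hz'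
    rcases hw1 with rfl | rfl
    · refine ⟨u, Or.inl rfl, ?_, hw3⟩
      rcases hw2 with h | h
      · exact Or.inl (hf h)
      · exact Or.inr (hf h)
    · refine ⟨v, Or.inr rfl, ?_, hw3⟩
      rcases hw2 with h | h
      · exact Or.inl (hf h)
      · exact Or.inr (hf h)

/-- There is a constant `c > 0` such that for every triconnected cubic planar graph `H`, every graph
`G` which is a subgraph of `H` (not necessarily spanning or induced: there is an injection `f` of the
vertices of `G` into those of `H` that maps edges to edges) and every set `X` of vertices of `G`,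
some `S ⊆ X` with `|S| ≥ c |X|` is a free set of `G`. -/
theorem result : ∃ c : ℝ, 0 < c ∧ ∀ (V W : Type) [Fintype V] [Fintype W] (G : SimpleGraph V)
    (H : SimpleGraph W) (f : V → W), Function.Injective f →
    (∀ u v, G.Adj u v → H.Adj (f u) (f v)) →
    Planar H → Cubic H → Triconnected H →
      ∀ X : Finset V, ∃ S : Finset V, S ⊆ X ∧ IsFreeSet G S ∧ c * (X.card : ℝ) ≤ S.card := by
  classical
  obtain ⟨c, hc, h⟩ := Pool.Agent.Results.MP_ca05b3_co.LinearFreeSubsets.result
  refine ⟨c, hc, ?_⟩
  intro V W _ _ G H f hf hadj hP hC hT X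
  obtain ⟨S', hS'X, ⟨v, hv, hvS, hfree⟩, hcard⟩ := h W H hP hC hT (X.image f)
  have hcX : (X.image f).card = X.card := Finset.card_image_of_injective _ hf
  have hmem : ∀ i, ∃ a, a ∈ X ∧ f a = v i := by
    intro i
    have h1 : v i ∈ S' := (hvS (v i)).2 ⟨i, rfl⟩
    have h2 := hS'X h1
    rw [Finset.mem_image] at h2
    exact h2
  choose g hgX hg using hmem
  have hginj : Function.Injective g := by
    intro i j hij
    apply hv
    rw [← hg i, ← hg j, hij]
  have hScard : (Finset.univ.image g).card = S'.card := by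
    rw [Finset.card_image_of_injective _ hginj, Finset.card_univ, Fintype.card_fin]
  refine ⟨Finset.univ.image g, ?_, ?_, ?_⟩
  · intro a ha
    obtain ⟨i, _, rfl⟩ := Finset.mem_image.mp ha
    exact hgX i
  · refine ⟨fun i => g (Fin.cast hScard i), ?_, ?_, ?_⟩
    · intro i j hij
      exact Fin.cast_injective hScard (hginj hij)
    · intro a
      constructor
      · intro ha
        obtain ⟨i, _, rfl⟩ := Finset.mem_image.mp ha
        exact ⟨Fin.cast hScard.symm i, by simp⟩
      · rintro ⟨i, rfl⟩
        exact Finset.mem_image_of_mem _ (Finset.mem_univ _)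
    · intro x y hx
      obtain ⟨p, hp, hpv⟩ := hfree (fun i => x (Fin.cast hScard.symm i))
        (fun i => y (Fin.cast hScard.symm i)) (fun i j hij => hx (by simpa using hij))
      refine ⟨fun a => p (f a), drawing_comp f hf hadj hp, ?_⟩
      intro i
      show p (f (g (Fin.cast hScard i))) = _
      rw [hg, hpv]
      simp
  · rw [hScard]
    rw [hcX] at hcard
    exact hcard

end Pool.Agent.Results.MP_b306af_co.CubicSubgraphs
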